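import Pool.Agent.H18.QGR.Stmts

/-!
# Row PHZ of the board `qgr`
-/

set_option autoImplicit false

noncomputable section

namespace Pool.QGR

open Pool.CGR

namespace PHZ53

variable {m : ℕ} (q : Fin m → Fin m → ℝ)

theorem expand (hI : WKIStmt) {V : Type} [AddCommGroup V] [Module ℂ V] (L : E m →ₗ[ℂ] V)
    (f : E m) : L f = (Ph q f).sum (fun v r => r • L (Wk q v)) := by
  conv_lhs => rw [← hI m q f]
  unfold Xi
  rw [Finsupp.linearCombination_apply, map_finsuppSum]
  simp only [map_smul]

theorem cn_single (i : Fin m) (w : List (Fin m)) (r : ℂ) :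
    cn i (Finsupp.single w r) = Finsupp.single (i :: w) r := by
  unfold cn
  rw [Finsupp.lmapDomain_apply, Finsupp.mapDomain_single]

theorem sn_single (i : Fin m) (w : List (Fin m)) (r : ℂ) :
    sn i (Finsupp.single w r) = Finsupp.single (w ++ [i]) r := by
  unfold sn
  rw [Finsupp.lmapDomain_apply, Finsupp.mapDomain_single]

theorem ev_cons {A : Type} [Ring A] (x : Fin m → A) (i : Fin m) (w : List (Fin m)) :
    ev x (i :: w) = x i * ev x w := by simp [ev]

theorem ev_snoc {A : Type} [Ring A] (x : Fin m → A) (i : Fin m) (w : List (Fin m)) :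
    ev x (w ++ [i]) = ev x w * x i := by simp [ev]

theorem evP_single {A : Type} [Ring A] [Algebra ℂ A] (x : Fin m → A) (w : List (Fin m)) (r : ℂ) :
    evP x (Finsupp.single w r) = r • ev x w := by
  unfold evP
  rw [Finsupp.linearCombination_single]

theorem evP_cn {A : Type} [Ring A] [Algebra ℂ A] (x : Fin m → A) (i : Fin m) (f : E m) :
    evP x (cn i f) = x i * evP x f := by
  induction f using Finsupp.induction_linear with
  | zero => simp
  | add f g hf hg => rw [map_add, map_add, hf, hg, map_add, mul_add]
  | single w r => rw [cn_single, evP_single, evP_single, ev_cons, mul_smul_comm]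

theorem evP_sn {A : Type} [Ring A] [Algebra ℂ A] (x : Fin m → A) (i : Fin m) (f : E m) :
    evP x (sn i f) = evP x f * x i := by
  induction f using Finsupp.induction_linear with
  | zero => simp
  | add f g hf hg => rw [map_add, map_add, hf, hg, map_add, add_mul]
  | single w r => rw [sn_single, evP_single, evP_single, ev_snoc, smul_mul_assoc]

theorem Ph_single (w : List (Fin m)) (r : ℂ) : Ph q (Finsupp.single w r) = r • Fk q w := by
  unfold Ph
  rw [Finsupp.linearCombination_single]

theorem Ph_cn (i : Fin m) (f : E m) : Ph q (cn i f) = X q i (Ph q f) := by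
  induction f using Finsupp.induction_linear with
  | zero => simp
  | add f g hf hg => rw [map_add, map_add, hf, hg, map_add, map_add]
  | single w r => rw [cn_single, Ph_single, Ph_single, map_smul, Fk]

theorem Ph_sn (hK : FKRStmt) (hq : ∀ i j, q i j = q j i) (i : Fin m) (f : E m) :
    Ph q (sn i f) = Xr q i (Ph q f) := by
  induction f using Finsupp.induction_linear with
  | zero => simp
  | add f g hf hg => rw [map_add, map_add, hf, hg, map_add, map_add]
  | single w r => rw [sn_single, Ph_single, Ph_single, map_smul, hK m q hq]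

theorem ci_single (i : Fin m) (w : List (Fin m)) (r : ℂ) :
    ci q i (Finsupp.single w r) = r * dq (fun u => Fk q u []) i w := by
  unfold ci
  rw [Finsupp.linearCombination_single, smul_eq_mul]

theorem ci_tel (hT : TELStmt)
    (hφ : ∀ (i : Fin m) (w : List (Fin m)), Fk q (i :: w) [] = Fk q (w ++ [i]) []) (f : E m) :
    ∑ i, (ci q i (sn i f) - ci q i (cn i f)) = 0 := by
  induction f using Finsupp.induction_linear with
  | zero => simp
  | add f g hf hg =>
    have h1 : ∑ i, (ci q i (sn i (f + g)) - ci q i (cn i (f + g))) =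
        ∑ i, (ci q i (sn i f) - ci q i (cn i f)) + ∑ i, (ci q i (sn i g) - ci q i (cn i g)) := by
      rw [← Finset.sum_add_distrib]
      refine Finset.sum_congr rfl fun i _ => ?_
      rw [map_add, map_add, map_add, map_add]
      ring
    rw [h1, hf, hg, add_zero]
  | single w r =>
    have h1 := hT m (fun u => Fk q u []) hφ w
    have h2 : ∑ i, (ci q i (sn i (Finsupp.single w r)) - ci q i (cn i (Finsupp.single w r))) =
        r * ∑ i, (dq (fun u => Fk q u []) i (w ++ [i]) - dq (fun u => Fk q u []) i (i :: w)) := by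
      rw [Finset.mul_sum]
      refine Finset.sum_congr rfl fun i _ => ?_
      rw [sn_single, cn_single, ci_single, ci_single]
      ring
    rw [h2, h1, mul_zero]

theorem supp_X (i : Fin m) (u v : List (Fin m)) (h : u.length + 1 < v.length) :
    X q i (Finsupp.single u 1) v = 0 := by
  unfold X
  rw [LinearMap.add_apply, cn_single, Finsupp.add_apply]
  have h1 : (Finsupp.single (i :: u) (1 : ℂ)) v = 0 := by
    rw [Finsupp.single_apply, if_neg]
    rintro rfl
    simp at h
  rw [h1, zero_add]
  unfold an
  rw [Finsupp.linearCombination_single, one_smul, Finsupp.finsetSum_apply]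
  refine Finset.sum_eq_zero fun k _ => ?_
  split_ifs with hk
  · rw [Finsupp.single_apply, if_neg]
    rintro rfl
    have := List.length_eraseIdx_le u k
    omega
  · rfl

theorem supp_Xr (i : Fin m) (u v : List (Fin m)) (h : u.length + 1 < v.length) :
    Xr q i (Finsupp.single u 1) v = 0 := by
  unfold Xr
  rw [LinearMap.add_apply, sn_single, Finsupp.add_apply]
  have h1 : (Finsupp.single (u ++ [i]) (1 : ℂ)) v = 0 := by
    rw [Finsupp.single_apply, if_neg]
    rintro rfl
    simp at h
  rw [h1, zero_add]
  unfold ar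
  rw [Finsupp.linearCombination_single, one_smul, Finsupp.finsetSum_apply]
  refine Finset.sum_eq_zero fun k _ => ?_
  split_ifs with hk
  · rw [Finsupp.single_apply, if_neg]
    rintro rfl
    have := List.length_eraseIdx_le u k
    omega
  · rfl

theorem step1 (hI : WKIStmt) (hO : ORTStmt) (hq : ∀ i j, q i j = q j i) {A : Type} [Ring A]
    [Algebra ℂ A] (τ : A →ₗ[ℂ] ℂ) (htr : ∀ a b, τ (a * b) = τ (b * a)) (x : Fin m → A)
    (hL : Law q τ x) (Q C : ℝ) (j : Fin m → List (Fin m) → ℂ) (hJ : JS q Q C τ x j) (N : ℕ)
    (i : Fin m) (f : E m) (hf : ∀ v, N < v.length → Ph q f v = 0) :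
    τ (evP x (pN q j N i) * evP x f) = ci q i f := by
  have h1 := expand q hI ((τ.comp (LinearMap.mulLeft ℂ (evP x (pN q j N i)))).comp (evP x)) f
  have h2 := expand q hI (ci q i) f
  simp only [LinearMap.comp_apply, LinearMap.mulLeft_apply] at h1
  rw [h1, h2]
  refine Finsupp.sum_congr fun v hv => ?_
  have hvN : v.length ≤ N := by
    by_contra h
    push Not at h
    exact (Finsupp.mem_support_iff.1 hv) (hf v h)
  congr 1
  rw [← hJ.sol i v]
  have h3 : evP x (pN q j N i) = ∑ w ∈ wds m (N + 1), j i w • evP x (Wk q w) := by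
    unfold pN
    rw [map_sum]
    refine Finset.sum_congr rfl fun w _ => ?_
    rw [map_smul]
  rw [h3, Finset.sum_mul, map_sum]
  have hsub : wn m v.length ⊆ wds m (N + 1) := by
    intro w hw
    rw [mem_wn] at hw
    rw [mem_wds]
    omega
  have h4 : ∀ w ∈ wds m (N + 1), τ (j i w • evP x (Wk q w) * evP x (Wk q v)) =
      j i w * τ (evP x (Wk q w) * evP x (Wk q v)) := by
    intro w _
    rw [smul_mul_assoc, map_smul, smul_eq_mul]
  rw [Finset.sum_congr rfl h4]
  symm
  refine Finset.sum_subset hsub fun w _ hw => ?_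
  have hne : w.length ≠ v.length := fun h => hw (mem_wn.2 h)
  rw [(hO m q hq A τ htr x hL).1 w v hne, mul_zero]

end PHZ53

open PHZ53 in
theorem phz_thm (hI : WKIStmt) (hF : WKFStmt) (hK : FKRStmt) (hO : ORTStmt) (hT : TELStmt) :
    PHZStmt := by
  intro m q Q hQ A _ _ τ htr x hL C j hJ hU N v hv
  have hq := hQ.symm
  have hφ : ∀ (i : Fin m) (w : List (Fin m)), Fk q (i :: w) [] = Fk q (w ++ [i]) [] := by
    intro i w
    rw [← hL (i :: w), ← hL (w ++ [i]), ev_cons, ev_snoc, htr]
  have hG : ∀ u : List (Fin m), u.length < N →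
      τ (evP x (gg (pN q j N)) * evP x (Wk q u)) = 0 := by
    intro u hu
    have e1 : evP x (gg (pN q j N)) =
        ∑ i, (x i * evP x (pN q j N i) - evP x (pN q j N i) * x i) := by
      unfold gg
      rw [map_sum]
      refine Finset.sum_congr rfl fun i _ => ?_
      rw [map_sub, evP_cn, evP_sn]
    rw [e1, Finset.sum_mul, map_sum]
    rw [← ci_tel q hT hφ (Wk q u)]
    refine Finset.sum_congr rfl fun i _ => ?_
    have s1 := step1 q hI hO hq τ htr x hL Q C j hJ N i (sn i (Wk q u)) (by
      intro v hv
      rw [Ph_sn q hK hq, hF m q u]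
      exact supp_Xr q i u v (by omega))
    have s2 := step1 q hI hO hq τ htr x hL Q C j hJ N i (cn i (Wk q u)) (by
      intro v hv
      rw [Ph_cn, hF m q u]
      exact supp_X q i u v (by omega))
    rw [evP_sn] at s1
    rw [evP_cn] at s2
    rw [← s1, ← s2, sub_mul, map_sub, mul_assoc (x i), htr (x i), mul_assoc, mul_assoc]
  refine hU v.length (fun w => Ph q (gg (pN q j N)) w) ?_ v rfl
  intro u hu
  have h1 := expand q hI ((τ.comp (LinearMap.mulRight ℂ (evP x (Wk q u)))).comp (evP x))
    (gg (pN q j N))
  simp only [LinearMap.comp_apply, LinearMap.mulRight_apply] at h1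
  rw [hG u (by omega)] at h1
  rw [h1]
  have hs := Finsupp.sum_of_support_subset (Ph q (gg (pN q j N)))
    (s := (Ph q (gg (pN q j N))).support ∪ wn m v.length) Finset.subset_union_left
    (fun w r => r • τ (evP x (Wk q w) * evP x (Wk q u))) (fun w _ => zero_smul _ _)
  rw [hs]
  refine Finset.sum_subset Finset.subset_union_right fun w _ hw => ?_
  have hne : w.length ≠ u.length := fun h => hw (mem_wn.2 (h.trans hu))
  rw [(hO m q hq A τ htr x hL).1 w u hne, mul_zero]

end Pool.QGR
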